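import Pool.Agent.N929.EZ.Stm
import Pool.Agent.N49.EY.SEL2

/-!
Project EZ, task SEL3 (helper322): sparse families of unit squares, exponentially small failure.
The families are those of SEL2 (helper49).
-/

set_option autoImplicit false

namespace Pool.Agent.N322.EZ

open Finset
open Pool.Agent.N929.EX
open Pool.Agent.N929.EY
open Pool.Agent.N929.EZ
open Pool.Agent.N49.EY

noncomputable section

/-- pairwise far -/
def Far (S : Finset (ℤ × ℤ)) : Prop := ∀ p ∈ S, ∀ q ∈ S, p ≠ q → ¬ cl p q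

theorem not_nr {p q b : ℤ × ℤ} (h : ¬ cl p q) (h1 : nr b p) (h2 : nr b q) : False := by
  apply h
  unfold nr at h1 h2
  unfold cl
  rw [abs_le, abs_le] at *
  omega

theorem nr_symm_cl {p q : ℤ × ℤ} (h : nr p q) : cl q p := by
  unfold nr at h
  unfold cl
  rw [abs_le, abs_le] at *
  omega

theorem iso_all (N : ℕ) (S : Finset (ℤ × ℤ)) (hS : Far S) (ω : Om N) :
    (∀ p ∈ S, Iso N ω p) ↔ ∀ b ∈ S.biUnion (Sp N), ω b = decide (b.1 ∈ S) := by
  have key : ∀ p ∈ S, ∀ b : ↥(Bx N), nr b.1 p → (b.1 ∈ S ↔ b.1 = p) := by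
    intro p hp b hb
    constructor
    · intro h
      by_contra hne
      exact hS p hp b.1 h (Ne.symm hne) (nr_symm_cl hb)
    · intro h
      rw [h]
      exact hp
  constructor
  · intro h b hb
    rw [mem_biUnion] at hb
    obtain ⟨p, hp, hb⟩ := hb
    have hb' := (mem_filter.1 hb).2
    rw [h p hp b hb']
    exact decide_eq_decide.2 (key p hp b hb').symm
  · intro h p hp b hb
    rw [h b (mem_biUnion.2 ⟨p, hp, mem_filter.2 ⟨mem_univ _, hb⟩⟩)]
    exact decide_eq_decide.2 (key p hp b hb)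

theorem card_all {N : ℕ} (S : Finset (ℤ × ℤ)) (hS : Far S) (hN : ∀ p ∈ S, p ∈ In0 N) :
    ((univ : Finset (Om N)).filter (fun ω => ∀ p ∈ S, Iso N ω p)).card * 512 ^ S.card =
      Fintype.card (Om N) := by
  have h := card_prescribed (S.biUnion (Sp N)) (fun b => decide (b.1 ∈ S))
  have hc : (S.biUnion (Sp N)).card = 9 * S.card := by
    rw [card_biUnion]
    · rw [sum_congr rfl fun p hp => card_Sp (hN p hp), sum_const, smul_eq_mul, mul_comm]
    · intro p hp q hq hne
      rw [Function.onFun, Finset.disjoint_left]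
      intro b h1 h2
      exact not_nr (hS p hp q hq hne) (mem_filter.1 h1).2 (mem_filter.1 h2).2
  rw [hc, pow_mul] at h
  have h0 : (univ : Finset (Om N)).filter (fun ω => ∀ p ∈ S, Iso N ω p) =
      univ.filter (fun ω : Om N => ∀ b ∈ S.biUnion (Sp N), ω b = decide (b.1 ∈ S)) := by
    ext ω
    rw [mem_filter, mem_filter]
    exact and_congr_right fun _ => iso_all N S hS ω
  rw [h0]
  norm_num at h ⊢
  exact h

/-- real indicator -/
def ir (N : ℕ) (p : ℤ × ℤ) (ω : Om N) : ℝ := if Iso N ω p then 1 else 0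

theorem sum_prod {N : ℕ} (S : Finset (ℤ × ℤ)) (hS : Far S) (hN : ∀ p ∈ S, p ∈ In0 N) :
    ∑ ω : Om N, ∏ p ∈ S, ir N p ω = (1 / 512) ^ S.card * Fintype.card (Om N) := by
  have h1 : ∀ ω : Om N, ∏ p ∈ S, ir N p ω = if ∀ p ∈ S, Iso N ω p then 1 else 0 := by
    intro ω
    unfold ir
    by_cases h : ∀ p ∈ S, Iso N ω p
    · rw [if_pos h]
      exact prod_eq_one fun p hp => if_pos (h p hp)
    · rw [if_neg h]
      push Not at h
      obtain ⟨p, hp, hp'⟩ := h
      exact prod_eq_zero hp (if_neg hp')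
  rw [sum_congr rfl fun ω _ => h1 ω, Finset.sum_boole]
  have h2 := card_all S hS hN
  have h3 : (((univ : Finset (Om N)).filter (fun ω => ∀ p ∈ S, Iso N ω p)).card : ℝ) *
      512 ^ S.card = Fintype.card (Om N) := by exact_mod_cast h2
  rw [← h3, one_div, inv_pow]
  field_simp

theorem mgf {N : ℕ} (S : Finset (ℤ × ℤ)) (hS : Far S) (hN : ∀ p ∈ S, p ∈ In0 N) :
    ∑ ω : Om N, ∏ p ∈ S, (1 - ir N p ω / 2) =
      (1 - 1 / 1024) ^ S.card * Fintype.card (Om N) := by
  have h1 : ∀ ω : Om N, ∏ p ∈ S, (1 - ir N p ω / 2) =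
      ∑ T ∈ S.powerset, (-(1 / 2) : ℝ) ^ T.card * ∏ p ∈ T, ir N p ω := by
    intro ω
    have e1 : ∏ p ∈ S, (1 - ir N p ω / 2) = ∏ p ∈ S, (-(1 / 2) * ir N p ω + 1) :=
      prod_congr rfl fun p _ => by ring
    rw [e1, Finset.prod_add]
    refine sum_congr rfl fun T _ => ?_
    rw [Finset.prod_const_one, mul_one, Finset.prod_mul_distrib, Finset.prod_const]
  rw [sum_congr rfl fun ω _ => h1 ω, sum_comm]
  have h2 : ∀ T ∈ S.powerset, ∑ ω : Om N, (-(1 / 2) : ℝ) ^ T.card * ∏ p ∈ T, ir N p ω =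
      (∏ p ∈ T, (-(1 / 1024) : ℝ)) * (∏ p ∈ S \ T, (1 : ℝ)) * Fintype.card (Om N) := by
    intro T hT
    have hTS := mem_powerset.1 hT
    rw [← mul_sum, sum_prod T (fun p hp q hq => hS p (hTS hp) q (hTS hq))
      (fun p hp => hN p (hTS hp)), ← mul_assoc, ← mul_pow, Finset.prod_const,
      Finset.prod_const_one, mul_one]
    norm_num
  rw [sum_congr rfl h2, ← sum_mul, ← Finset.prod_add]
  congr 1
  rw [Finset.prod_const]
  norm_num

theorem prod_half {N : ℕ} (S : Finset (ℤ × ℤ)) (hN : ∀ p ∈ S, p ∈ In0 N) (ω : Om N) :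
    ∏ p ∈ S, (1 - ir N p ω / 2) = Real.exp (-(Real.log 2 * ((La N ω ∩ S).card : ℝ))) := by
  have e0 : S.filter (fun p => Iso N ω p) = La N ω ∩ S := by
    ext p
    rw [mem_filter, mem_inter]
    constructor
    · rintro ⟨h, h'⟩
      exact ⟨mem_filter.2 ⟨hN p h, h'⟩, h⟩
    · rintro ⟨h', h⟩
      exact ⟨h, (mem_filter.1 h').2⟩
  have e1 : ∏ p ∈ S, (1 - ir N p ω / 2) = ∏ p ∈ S, (if Iso N ω p then (1 / 2 : ℝ) else 1) := by
    refine prod_congr rfl fun p _ => ?_
    unfold ir
    split_ifs <;> norm_num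
  rw [e1, Finset.prod_ite, Finset.prod_const_one, mul_one, Finset.prod_const, e0,
    ← Real.rpow_natCast, Real.rpow_def_of_pos (by norm_num)]
  congr 1
  rw [one_div, Real.log_inv]
  ring

/-- **SEL3** -/
theorem sel3 : S_SEL3 := by
  intro N
  refine ⟨Om N, inferInstance, inferInstance, La N, ?_, ?_⟩
  · intro ω p hp q hq hpq v hv
    obtain ⟨⟨h1, h2⟩, h3, h4⟩ := hv
    have hp' := mem_filter.1 hp
    have hq' := mem_filter.1 hq
    have hn : nr q p := by
      unfold nr
      rw [abs_le, abs_le]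
      omega
    have e1 := hp'.2 ⟨q, mem_Bx_of_nr hq'.1 (nr_self q)⟩ hn
    have e2 := hq'.2 ⟨q, mem_Bx_of_nr hq'.1 (nr_self q)⟩ (nr_self q)
    rw [e1] at e2
    simp [Ne.symm hpq] at e2
  · intro P hP
    have hP' : ∀ p ∈ P, p ∈ In0 N := fun p hp => mem_In0.2 (hP p hp)
    -- a residue class with many points
    obtain ⟨r, -, hr⟩ := Finset.exists_le_card_fiber_of_nsmul_le_card_of_maps_to
      (s := P) (t := (Icc (0 : ℤ) 2) ×ˢ (Icc (0 : ℤ) 2)) (f := fun p => (p.1 % 3, p.2 % 3))
      (b := (P.card : ℝ) / 9) (by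
        intro p _
        rw [mem_product, mem_Icc, mem_Icc]
        simp only
        omega) ⟨(0, 0), by simp⟩ (by
        have e9 : ((Icc (0 : ℤ) 2) ×ˢ (Icc (0 : ℤ) 2)).card = 9 := rfl
        rw [e9, nsmul_eq_mul]
        push_cast
        linarith)
    set S := P.filter (fun p => (p.1 % 3, p.2 % 3) = r) with hSdef
    have hfar : Far S := by
      intro p hp q hq hne hcl
      apply hne
      have h1 := (mem_filter.1 hp).2
      have h2 := (mem_filter.1 hq).2
      rw [← h2, Prod.mk.injEq] at h1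
      unfold cl at hcl
      rw [abs_le, abs_le] at hcl
      apply Prod.ext
      · omega
      · omega
    have hSN : ∀ p ∈ S, p ∈ In0 N := fun p hp => hP' p (mem_filter.1 hp).1
    have hmgf := mgf S hfar hSN
    set Bad := (univ : Finset (Om N)).filter
      (fun i => 100000 * (La N i ∩ P).card < P.card) with hBad
    have h1 : (Bad.card : ℝ) * Real.exp (-(Real.log 2 * ((P.card : ℝ) / 100000))) ≤
        ∑ ω : Om N, ∏ p ∈ S, (1 - ir N p ω / 2) := by
      calc (Bad.card : ℝ) * Real.exp (-(Real.log 2 * ((P.card : ℝ) / 100000)))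
          = ∑ ω ∈ Bad, Real.exp (-(Real.log 2 * ((P.card : ℝ) / 100000))) := by
            rw [sum_const, nsmul_eq_mul]
        _ ≤ ∑ ω ∈ Bad, ∏ p ∈ S, (1 - ir N p ω / 2) := by
            refine sum_le_sum fun ω hω => ?_
            have h2 := (mem_filter.1 hω).2
            have h3 : (La N ω ∩ S).card ≤ (La N ω ∩ P).card :=
              card_le_card (inter_subset_inter_left (filter_subset _ _))
            have h4 : ((La N ω ∩ S).card : ℝ) ≤ (P.card : ℝ) / 100000 := by
              rw [le_div_iff₀ (by norm_num)]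
              have h5 : 100000 * (La N ω ∩ S).card ≤ P.card := by omega
              have h6 : ((100000 * (La N ω ∩ S).card : ℕ) : ℝ) ≤ P.card := by exact_mod_cast h5
              push_cast at h6
              linarith
            rw [prod_half S hSN ω]
            apply Real.exp_le_exp.2
            have h5 : 0 ≤ Real.log 2 := Real.log_nonneg (by norm_num)
            have h6 := mul_le_mul_of_nonneg_left h4 h5
            linarith
        _ ≤ ∑ ω : Om N, ∏ p ∈ S, (1 - ir N p ω / 2) := by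
            refine sum_le_sum_of_subset_of_nonneg (filter_subset _ _) fun ω _ _ => ?_
            rw [prod_half S hSN ω]
            exact (Real.exp_pos _).le
    rw [hmgf] at h1
    have h2 : ((1 : ℝ) - 1 / 1024) ^ S.card ≤ Real.exp (-((P.card : ℝ) / 9216)) := by
      have h3 : (1 : ℝ) - 1 / 1024 ≤ Real.exp (-(1 / 1024)) := by
        have := Real.add_one_le_exp (-(1 / 1024 : ℝ))
        linarith
      calc ((1 : ℝ) - 1 / 1024) ^ S.card ≤ (Real.exp (-(1 / 1024))) ^ S.card :=
            pow_le_pow_left₀ (by norm_num) h3 _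
        _ = Real.exp (S.card * (-(1 / 1024))) := by rw [Real.exp_nat_mul]
        _ ≤ Real.exp (-((P.card : ℝ) / 9216)) := by
            apply Real.exp_le_exp.2
            linarith
    have hcard : (0 : ℝ) ≤ Fintype.card (Om N) := Nat.cast_nonneg _
    have h3 : (Bad.card : ℝ) * Real.exp (-(Real.log 2 * ((P.card : ℝ) / 100000))) ≤
        (Real.exp (-((P.card : ℝ) / 100000)) * Fintype.card (Om N)) *
          Real.exp (-(Real.log 2 * ((P.card : ℝ) / 100000))) := by
      refine h1.trans ?_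
      have h4 : Real.exp (-((P.card : ℝ) / 9216)) ≤ Real.exp (-((P.card : ℝ) / 100000)) *
          Real.exp (-(Real.log 2 * ((P.card : ℝ) / 100000))) := by
        rw [← Real.exp_add]
        apply Real.exp_le_exp.2
        have h5 := Real.log_two_lt_d9
        have h6 : (0 : ℝ) ≤ P.card := Nat.cast_nonneg _
        have h7 : Real.log 2 * ((P.card : ℝ) / 100000) ≤ 1 * ((P.card : ℝ) / 100000) :=
          mul_le_mul_of_nonneg_right (by linarith) (by positivity)
        linarith
      calc (1 - 1 / 1024 : ℝ) ^ S.card * Fintype.card (Om N)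
          ≤ (Real.exp (-((P.card : ℝ) / 100000)) *
            Real.exp (-(Real.log 2 * ((P.card : ℝ) / 100000)))) * Fintype.card (Om N) :=
            mul_le_mul_of_nonneg_right (h2.trans h4) hcard
        _ = _ := by ring
    exact le_of_mul_le_mul_right h3 (Real.exp_pos _)

end

end Pool.Agent.N322.EZ
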